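import Mathlib

/-!
# Base sizes of faithful actions of the symmetric group

For every `n` and every faithful action of `Equiv.Perm (Fin n)` on a set `X` there is a base with
at most `n` points.
-/

namespace Pool.Agent.Results.MP_3e5dca_al.BaseSizeSymmetric

open Equiv Equiv.Perm
open scoped Pointwise

/-- `B` is a base for the action of `G` on `X`: its pointwise stabiliser is trivial. -/
def IsBase (G X : Type*) [Group G] [MulAction G X] (B : Finset X) : Prop :=
  ∀ g : G, (∀ x ∈ B, g • x = x) → g = 1

/-- The base size `b(G, X)`: the smallest cardinality of a (finite) base. -/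
noncomputable def baseSize (G X : Type*) [Group G] [MulAction G X] : ℕ :=
  sInf {k | ∃ B : Finset X, IsBase G X B ∧ B.card = k}

/-! ### The greedy bound -/

theorem greedy {G X : Type*} [Group G] [Finite G] [MulAction G X] [FaithfulSMul G X]
    (m : ℕ) : ∀ K : Subgroup G, Nat.card K < 2 ^ (m + 1) →
      ∃ B : Finset X, B.card ≤ m ∧ ∀ g ∈ K, (∀ x ∈ B, g • x = x) → g = 1 := by
  classical
  induction m with
  | zero =>
    intro K hK
    refine ⟨∅, by simp, fun g hg _ => ?_⟩
    have h1 : Nat.card K = 1 := by
      have : 0 < Nat.card K := Nat.card_pos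
      omega
    rw [Subgroup.card_eq_one] at h1
    rw [h1] at hg
    exact Subgroup.mem_bot.1 hg
  | succ m ih =>
    intro K hK
    by_cases hb : ∀ g ∈ K, g = 1
    · exact ⟨∅, by simp, fun g hg _ => hb g hg⟩
    push Not at hb
    obtain ⟨g, hg, hg1⟩ := hb
    have hx : ∃ x : X, g • x ≠ x := by
      by_contra hcon
      push Not at hcon
      exact hg1 (FaithfulSMul.eq_of_smul_eq_smul (α := X) (fun x => by rw [hcon x, one_smul]))
    obtain ⟨x, hx⟩ := hx
    let K' : Subgroup G := K ⊓ MulAction.stabilizer G x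
    have hle : K' ≤ K := inf_le_left
    have hne : K' ≠ K := by
      intro h
      have : g ∈ K' := h ▸ hg
      exact hx (MulAction.mem_stabilizer_iff.1 (Subgroup.mem_inf.1 this).2)
    have hcard : 2 * Nat.card K' ≤ Nat.card K := by
      obtain ⟨c, hc⟩ := Subgroup.card_dvd_of_le hle
      have hpos : 0 < Nat.card K := Nat.card_pos
      have hpos' : 0 < Nat.card K' := Nat.card_pos
      rcases Nat.lt_or_ge c 2 with h2 | h2
      · exfalso
        have hc1 : c = 1 := by
          rcases Nat.eq_zero_or_pos c with h0 | h0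
          · rw [h0, mul_zero] at hc; omega
          · omega
        rw [hc1, mul_one] at hc
        exact hne (Subgroup.eq_of_le_of_card_ge hle hc.le)
      · rw [hc]
        nlinarith
    have hK' : Nat.card K' < 2 ^ (m + 1) := by
      rw [pow_succ] at hK
      omega
    obtain ⟨B, hB, hB'⟩ := ih K' hK'
    refine ⟨insert x B, (Finset.card_insert_le _ _).trans (by omega), fun k hk hfix => ?_⟩
    refine hB' k (Subgroup.mem_inf.2 ⟨hk, ?_⟩) (fun y hy => hfix y (Finset.mem_insert_of_mem hy))
    exact MulAction.mem_stabilizer_iff.2 (hfix x (Finset.mem_insert_self _ _))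

/-! ### The relation -/

variable {α : Type*} [Fintype α] [DecidableEq α]

/-- `i` and `j` are related when some element of `H` moving at most three points takes `i`
to `j`. -/
def Rel (H : Subgroup (Perm α)) (i j : α) : Prop :=
  ∃ g ∈ H, g i = j ∧ g.support.card ≤ 3

variable {H : Subgroup (Perm α)}

theorem Rel.refl (i : α) : Rel H i i := ⟨1, H.one_mem, rfl, by simp⟩

theorem Rel.symm {i j : α} (h : Rel H i j) : Rel H j i := by
  obtain ⟨g, hg, hij, hc⟩ := h
  refine ⟨g⁻¹, H.inv_mem hg, ?_, by rwa [support_inv]⟩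
  rw [← hij]; simp

theorem Rel.map {i j : α} (h : Rel H i j) {k : Perm α} (hk : k ∈ H) : Rel H (k i) (k j) := by
  obtain ⟨g, hg, hij, hc⟩ := h
  refine ⟨k * g * k⁻¹, H.mul_mem (H.mul_mem hk hg) (H.inv_mem hk), ?_, ?_⟩
  · simp [hij]
  · rwa [card_support_conj]

theorem Rel.map_iff {i j : α} {k : Perm α} (hk : k ∈ H) : Rel H (k i) (k j) ↔ Rel H i j := by
  constructor
  · intro h
    have := h.map (H.inv_mem hk)
    simpa using this
  · exact fun h => h.map hk

theorem Rel.trans {i j k : α} (h : Rel H i j) (h' : Rel H j k) : Rel H i k := by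
  obtain ⟨g, hg, hij, hc⟩ := h
  by_cases hik : i = k
  · rw [hik]; exact Rel.refl k
  by_cases hij' : i = j
  · rw [hij']; exact h'
  by_cases hgk : g k = k
  · -- conjugate the second element
    have := h'.map (H.inv_mem hg)
    have e1 : g⁻¹ j = i := by rw [← hij]; simp
    have e2 : g⁻¹ k = k := by
      rw [Perm.inv_eq_iff_eq]; exact hgk.symm
    rwa [e1, e2] at this
  · have hgi : g i ≠ i := by rw [hij]; exact fun h => hij' h.symm
    have hgj : g j ≠ j := by
      intro h
      exact hij' (g.injective (hij.trans h.symm))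
    have hjk : j ≠ k ∨ j = k := (em _).symm
    rcases hjk with hjk | hjk
    · have hsub : ({i, j, k} : Finset α) ⊆ g.support := by
        intro x hx
        simp only [Finset.mem_insert, Finset.mem_singleton] at hx
        rcases hx with rfl | rfl | rfl <;> simpa [mem_support]
      have hcard : ({i, j, k} : Finset α).card = 3 := by
        rw [Finset.card_eq_three]
        exact ⟨i, j, k, hij', hik, hjk, rfl⟩
      have heq : ({i, j, k} : Finset α) = g.support :=
        Finset.eq_of_subset_of_card_le hsub (by omega)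
      have hgk' : g k ∈ g.support := by
        rw [apply_mem_support, mem_support]; exact hgk
      rw [← heq] at hgk'
      simp only [Finset.mem_insert, Finset.mem_singleton] at hgk'
      rcases hgk' with h1 | h1 | h1
      · refine ⟨g⁻¹, H.inv_mem hg, ?_, by rwa [support_inv]⟩
        rw [← h1]; simp
      · exact absurd (g.injective (hij.trans h1.symm)) hik
      · exact absurd h1 hgk
    · rw [← hjk]; exact ⟨g, hg, hij, hc⟩

/-- If all points are related then `H` contains the alternating group. -/
theorem alternating_le_of_rel [Nontrivial α] (hR : ∀ i j : α, Rel H i j) :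
    alternatingGroup α ≤ H := by
  classical
  obtain ⟨a, b, hab⟩ := exists_pair_ne α
  have hprim : MulAction.IsPreprimitive H α := by
    refine MulAction.IsPreprimitive.of_isTrivialBlock_of_notMem_fixedPoints (a := a) ?_ ?_
    · intro hfix
      obtain ⟨g, hg, hgab, -⟩ := hR a b
      have := hfix ⟨g, hg⟩
      exact hab (by rw [← hgab]; exact this.symm)
    · intro B haB hB
      rw [MulAction.IsTrivialBlock]
      by_contra hcon
      push Not at hcon
      obtain ⟨hns, hnu⟩ := hcon
      obtain ⟨x, hx, y, hy, hxy⟩ := Set.not_subsingleton_iff.1 (by simpa using hns)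
      obtain ⟨z, hz⟩ := (Set.ne_univ_iff_exists_notMem B).1 hnu
      obtain ⟨g, hg, hgxz, hgc⟩ := hR x z
      have hdis : _root_.Disjoint ((⟨g, hg⟩ : H) • B) B := by
        rcases (MulAction.isBlock_iff_smul_eq_or_disjoint.1 hB) ⟨g, hg⟩ with h | h
        · exfalso
          apply hz
          rw [← h, ← hgxz]
          exact Set.smul_mem_smul_set (a := (⟨g, hg⟩ : H)) hx
        · exact h
      have hnot : ∀ w ∈ B, g w ∉ B := by
        intro w hw hw'
        exact Set.disjoint_left.1 hdis (Set.smul_mem_smul_set (a := (⟨g, hg⟩ : H)) hw) hw'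
      have hxz : x ≠ z := fun h => hz (h ▸ hx)
      have hyz : y ≠ z := fun h => hz (h ▸ hy)
      have hgx : g x ≠ x := fun h => hnot x hx (h.symm ▸ hx)
      have hgy : g y ≠ y := fun h => hnot y hy (h.symm ▸ hy)
      have hgz : g z ≠ z := fun h => hxz (g.injective (hgxz.trans h.symm))
      have hsub : ({x, y, z} : Finset α) ⊆ g.support := by
        intro w hw
        simp only [Finset.mem_insert, Finset.mem_singleton] at hw
        rcases hw with rfl | rfl | rfl <;> simpa [mem_support]
      have hcard : ({x, y, z} : Finset α).card = 3 := by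
        rw [Finset.card_eq_three]
        exact ⟨x, y, z, hxy, hxz, hyz, rfl⟩
      have heq : ({x, y, z} : Finset α) = g.support :=
        Finset.eq_of_subset_of_card_le hsub (by omega)
      have hgy' : g y ∈ g.support := by
        rw [apply_mem_support, mem_support]; exact hgy
      rw [← heq] at hgy'
      simp only [Finset.mem_insert, Finset.mem_singleton] at hgy'
      rcases hgy' with h1 | h1 | h1
      · exact hnot y hy (h1.symm ▸ hx)
      · exact hgy h1
      · exact hxy (g.injective (hgxz.trans h1.symm))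
  obtain ⟨g, hg, hgab, hgc⟩ := hR a b
  have hg1 : g ≠ 1 := by
    rintro rfl
    exact hab hgab
  have h2 : 2 ≤ g.support.card := two_le_card_support_of_ne_one hg1
  have h23 : g.support.card = 2 ∨ g.support.card = 3 := by omega
  rcases h23 with h | h
  · have := subgroup_eq_top_of_isPreprimitive_of_isSwap_mem hprim g (card_support_eq_two.1 h) hg
    rw [this]; exact le_top
  · exact alternatingGroup_le_of_isPreprimitive_of_isThreeCycle_mem hprim
      (card_support_eq_three_iff.1 h) hg

/-! ### Swaps -/

omit [Fintype α] in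
theorem swap_comm_of_ne {a b c d : α} (h1 : a ≠ c) (h2 : a ≠ d) (h3 : b ≠ c) (h4 : b ≠ d) :
    swap a b * swap c d = swap c d * swap a b := by
  rw [Equiv.swap_mul_eq_mul_swap]
  congr 1
  rw [Equiv.swap_inv, swap_apply_of_ne_of_ne h1 h2, swap_apply_of_ne_of_ne h3 h4]

theorem card_support_swap_mul_swap_le {a b c d : α} (s : Finset α) (hs : s.card ≤ 3)
    (ha : a ∈ s) (hb : b ∈ s) (hc : c ∈ s) (hd : d ∈ s) :
    (swap a b * swap c d).support.card ≤ 3 := by
  refine le_trans (Finset.card_le_card ?_) hs
  intro x hx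
  by_contra hxs
  rw [mem_support] at hx
  apply hx
  have e1 : x ≠ a := fun h => hxs (h ▸ ha)
  have e2 : x ≠ b := fun h => hxs (h ▸ hb)
  have e3 : x ≠ c := fun h => hxs (h ▸ hc)
  have e4 : x ≠ d := fun h => hxs (h ▸ hd)
  rw [Perm.mul_apply, swap_apply_of_ne_of_ne e3 e4, swap_apply_of_ne_of_ne e1 e2]

/-- The basic trichotomy for `h ∈ H ∩ H^τ`, `τ = (i j)`, with `i`, `j` unrelated. -/
theorem pair_lemma {i j : α} (hij : ¬ Rel H i j) {h : Perm α} (hh : h ∈ H)
    (hh' : (swap i j)⁻¹ * h * swap i j ∈ H) :
    (h i = i ∧ h j = j) ∨ (h i = j ∧ h j = i) ∨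
      (h i ≠ i ∧ h i ≠ j ∧ h j ≠ i ∧ h j ≠ j ∧ swap i j * swap (h i) (h j) ∈ H) := by
  have hne : i ≠ j := fun e => hij (e ▸ Rel.refl i)
  have hinj : h i ≠ h j := fun e => hne (h.injective e)
  have hp : swap i j * swap (h i) (h j) ∈ H := by
    have : swap i j * swap (h i) (h j) = ((swap i j)⁻¹ * h * swap i j) * h⁻¹ := by
      rw [Equiv.swap_apply_apply, Equiv.swap_inv]
      simp only [mul_assoc]
    rw [this]
    exact H.mul_mem hh' (H.inv_mem hh)
  by_cases h1 : h i = i
  · by_cases h2 : h j = j
    · exact Or.inl ⟨h1, h2⟩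
    · exfalso
      apply hij
      refine Rel.symm ⟨_, hp, ?_, ?_⟩
      · rw [h1, Perm.mul_apply, swap_apply_of_ne_of_ne hne.symm (Ne.symm h2), swap_apply_right]
      · refine card_support_swap_mul_swap_le {i, j, h j} Finset.card_le_three ?_ ?_ ?_ ?_ <;>
          simp [h1]
  by_cases h2 : h i = j
  · by_cases h3 : h j = i
    · exact Or.inr (Or.inl ⟨h2, h3⟩)
    · exfalso
      apply hij
      refine ⟨_, hp, ?_, ?_⟩
      · rw [h2, Perm.mul_apply, swap_apply_of_ne_of_ne hne (Ne.symm h3), swap_apply_left]
      · refine card_support_swap_mul_swap_le {i, j, h j} Finset.card_le_three ?_ ?_ ?_ ?_ <;>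
          simp [h2]
  by_cases h3 : h j = i
  · exfalso
    apply hij
    refine Rel.symm ⟨_, hp, ?_, ?_⟩
    · rw [h3, Perm.mul_apply, swap_apply_of_ne_of_ne (Ne.symm h2) hne.symm, swap_apply_right]
    · refine card_support_swap_mul_swap_le {i, j, h i} Finset.card_le_three ?_ ?_ ?_ ?_ <;>
        simp [h3]
  by_cases h4 : h j = j
  · exfalso
    apply hij
    refine ⟨_, hp, ?_, ?_⟩
    · rw [h4, Perm.mul_apply, swap_apply_of_ne_of_ne (Ne.symm h1) hne, swap_apply_left]
    · refine card_support_swap_mul_swap_le {i, j, h i} Finset.card_le_three ?_ ?_ ?_ ?_ <;>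
        simp [h4]
  exact Or.inr (Or.inr ⟨h1, h2, h3, h4, hp⟩)

/-- In the disjoint case, every point related to `i` is `i`, `h i` or `h j`. -/
theorem rel_of_disjoint {i j : α} (hij : ¬ Rel H i j) {h : Perm α}
    (h1 : h i ≠ i) (h3 : h j ≠ i)
    (hd : swap i j * swap (h i) (h j) ∈ H) {k : α} (hk : Rel H i k) :
    k = i ∨ k = h i ∨ k = h j := by
  by_contra hcon
  push Not at hcon
  obtain ⟨hki, hkhi, hkhj⟩ := hcon
  have hkj : k ≠ j := fun e => hij (e ▸ hk)
  have := hk.map hd
  rw [Perm.mul_apply, Perm.mul_apply, swap_apply_of_ne_of_ne (Ne.symm h1) (Ne.symm h3),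
    swap_apply_left, swap_apply_of_ne_of_ne hkhi hkhj, swap_apply_of_ne_of_ne hki hkj] at this
  exact hij (hk.trans this.symm)

open Classical in
/-- The number of points related to `i`. -/
noncomputable def cnt (H : Subgroup (Perm α)) (i : α) : ℕ :=
  (Finset.univ.filter (fun k => Rel H i k)).card

theorem cnt_map {i : α} {d : Perm α} (hd : d ∈ H) : cnt H (d i) = cnt H i := by
  classical
  unfold cnt
  symm
  refine Finset.card_bij (fun k _ => d k) ?_ ?_ ?_
  · intro k hk
    simp only [Finset.mem_filter, Finset.mem_univ, true_and] at hk ⊢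
    exact hk.map hd
  · intro a _ b _ hab
    exact d.injective hab
  · intro b hb
    simp only [Finset.mem_filter, Finset.mem_univ, true_and] at hb
    refine ⟨d⁻¹ b, ?_, by simp⟩
    simp only [Finset.mem_filter, Finset.mem_univ, true_and]
    have := hb.map (H.inv_mem hd)
    simpa using this

theorem cnt_of_disjoint {i j : α} (hij : ¬ Rel H i j) {h : Perm α} (hh : h ∈ H)
    (h1 : h i ≠ i) (h3 : h j ≠ i)
    (hd : swap i j * swap (h i) (h j) ∈ H) :
    cnt H i ≤ 2 ∧ cnt H i = cnt H j := by
  classical
  constructor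
  · have hnot : ¬ Rel H (h i) (h j) := fun e => hij ((Rel.map_iff hh).1 e)
    by_cases hc : Rel H i (h i)
    · have hc' : ¬ Rel H i (h j) := fun e => hnot (hc.symm.trans e)
      unfold cnt
      refine le_trans (Finset.card_le_card (t := {i, h i}) ?_) Finset.card_le_two
      intro k hk
      simp only [Finset.mem_filter, Finset.mem_univ, true_and] at hk
      simp only [Finset.mem_insert, Finset.mem_singleton]
      rcases rel_of_disjoint hij h1 h3 hd hk with e | e | e
      · exact Or.inl e
      · exact Or.inr e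
      · exact absurd (e ▸ hk) hc'
    · unfold cnt
      refine le_trans (Finset.card_le_card (t := {i, h j}) ?_) Finset.card_le_two
      intro k hk
      simp only [Finset.mem_filter, Finset.mem_univ, true_and] at hk
      simp only [Finset.mem_insert, Finset.mem_singleton]
      rcases rel_of_disjoint hij h1 h3 hd hk with e | e | e
      · exact Or.inl e
      · exact absurd (e ▸ hk) hc
      · exact Or.inr e
  · have := cnt_map (i := i) hd
    rw [Perm.mul_apply, swap_apply_of_ne_of_ne (Ne.symm h1) (Ne.symm h3), swap_apply_left] at this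
    exact this.symm


/-! ### The three cases -/

/-- What has to be shown about a subgroup `H`: few conjugates of `H` intersect in a small
group. -/
def Few (H : Subgroup (Perm α)) : Prop :=
  ∃ (T : Finset (Perm α)) (m : ℕ), T.card + m ≤ Fintype.card α ∧
    ∀ K : Subgroup (Perm α), (∀ g ∈ K, ∀ τ ∈ T, τ⁻¹ * g * τ ∈ H) → Nat.card K < 2 ^ (m + 1)

omit [DecidableEq α] in
theorem card_le_of_stab (K : Subgroup (Perm α)) (v : α) (S : Finset α)
    (hS : ∀ g ∈ K, g v ∈ S) (hfix : ∀ g ∈ K, g v = v → g = 1) : Nat.card K ≤ S.card := by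
  have hinj : Function.Injective (fun g : K => (⟨g.1 v, hS g.1 g.2⟩ : S)) := by
    intro a b hab
    have h1 : a.1 v = b.1 v := congrArg Subtype.val hab
    have h2 : (b.1⁻¹ * a.1) v = v := by
      rw [Perm.mul_apply, h1]; simp
    have h3 := hfix _ (K.mul_mem (K.inv_mem b.2) a.2) h2
    have h4 : a.1 = b.1 := by
      have := congrArg (fun z => b.1 * z) h3
      simpa using this
    exact Subtype.ext h4
  have := Nat.card_le_card_of_injective _ hinj
  simpa using this

theorem case_one (P : α → Prop) (v1 v2 : α) (hv1 : P v1) (hv2 : ¬ P v2)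
    (hcard : 3 ≤ Fintype.card α)
    (hgood : ∀ i j, P i → ¬ P j → ∀ h ∈ H, (swap i j)⁻¹ * h * swap i j ∈ H →
      (h i = i ∧ h j = j) ∨ (h i = j ∧ h j = i)) : Few H := by
  classical
  let f : α → Perm α := fun w => if w = v1 then 1 else if P w then swap w v2 else swap v1 w
  refine ⟨Finset.univ.image f, 0, ?_, ?_⟩
  · simpa using Finset.card_image_le (s := Finset.univ) (f := f)
  intro K hK
  have hbot : K = ⊥ := by
    rw [Subgroup.eq_bot_iff_forall]
    intro g hg
    have hmem : ∀ w, (f w)⁻¹ * g * f w ∈ H := fun w =>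
      hK g hg _ (Finset.mem_image_of_mem f (Finset.mem_univ w))
    have hgH : g ∈ H := by
      have := hmem v1
      simpa [f] using this
    have hA : ∀ w, ¬ P w → (g v1 = v1 ∧ g w = w) ∨ (g v1 = w ∧ g w = v1) := by
      intro w hw
      refine hgood v1 w hv1 hw g hgH ?_
      have hw1 : w ≠ v1 := fun e => hw (e ▸ hv1)
      have := hmem w
      simpa only [f, if_neg hw1, if_neg hw] using this
    have hB : ∀ w, P w → (g w = w ∧ g v2 = v2) ∨ (g w = v2 ∧ g v2 = w) := by
      intro w hw
      refine hgood w v2 hw hv2 g hgH ?_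
      by_cases hw1 : w = v1
      · have h21 : v2 ≠ v1 := fun e => hv2 (e ▸ hv1)
        have := hmem v2
        rw [hw1]
        simpa only [f, if_neg h21, if_neg hv2] using this
      · have := hmem w
        simpa only [f, if_neg hw1, if_pos hw] using this
    have h12 : v1 ≠ v2 := fun e => hv2 (e ▸ hv1)
    have hA' : g v1 = v1 → ∀ w, ¬ P w → g w = w := by
      intro h w hw
      rcases hA w hw with ⟨_, h2⟩ | ⟨h2, _⟩
      · exact h2
      · exact absurd (h2.symm.trans h) (fun e => hw (e ▸ hv1))
    have hB' : g v2 = v2 → ∀ w, P w → g w = w := by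
      intro h w hw
      rcases hB w hw with ⟨h2, _⟩ | ⟨_, h2⟩
      · exact h2
      · exact absurd (h2.symm.trans h) (fun e => hv2 (e ▸ hw))
    obtain ⟨u, hu⟩ : ∃ u, u ∉ ({v1, v2} : Finset α) := by
      by_contra hcon
      push Not at hcon
      have : (Finset.univ : Finset α) ⊆ {v1, v2} := fun x _ => hcon x
      have h1 := Finset.card_le_card this
      have h2 := Finset.card_le_two (a := v1) (b := v2)
      rw [Finset.card_univ] at h1
      omega
    simp only [Finset.mem_insert, Finset.mem_singleton, not_or] at hu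
    obtain ⟨hu1, hu2⟩ := hu
    by_cases hPu : P u
    · have hg2 : g v2 = v2 := by
        rcases hB u hPu with ⟨_, h2⟩ | ⟨_, h2⟩
        · exact h2
        · rcases hB v1 hv1 with ⟨_, h3⟩ | ⟨_, h3⟩
          · exact h3
          · exact absurd (h2.symm.trans h3) hu1
      have hg1 := hB' hg2 v1 hv1
      ext w
      by_cases hw : P w
      · simpa using hB' hg2 w hw
      · simpa using hA' hg1 w hw
    · have hg1 : g v1 = v1 := by
        rcases hA u hPu with ⟨h2, _⟩ | ⟨h2, _⟩
        · exact h2
        · rcases hA v2 hv2 with ⟨h3, _⟩ | ⟨h3, _⟩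
          · exact h3
          · exact absurd (h2.symm.trans h3) hu2
      have hg2 := hA' hg1 v2 hv2
      ext w
      by_cases hw : P w
      · simpa using hB' hg2 w hw
      · simpa using hA' hg1 w hw
  rw [hbot]
  simp

theorem case_two (hcard : 5 ≤ Fintype.card α) (hc : ∀ i, cnt H i = 2) : Few H := by
  classical
  have hstar : ∀ i, ∃ i', i' ≠ i ∧ Rel H i i' ∧ ∀ k, Rel H i k → k = i ∨ k = i' := by
    intro i
    have h := hc i
    unfold cnt at h
    rw [Finset.card_eq_two] at h
    obtain ⟨x, y, hxy, hS⟩ := h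
    have hmem : ∀ k, Rel H i k ↔ k = x ∨ k = y := by
      intro k
      have : k ∈ Finset.univ.filter (fun k => Rel H i k) ↔ k ∈ ({x, y} : Finset α) := by rw [hS]
      simpa using this
    rcases (hmem i).1 (Rel.refl i) with h | h
    · refine ⟨y, fun e => hxy (h.symm.trans e.symm), (hmem y).2 (Or.inr rfl), fun k hk => ?_⟩
      rcases (hmem k).1 hk with h' | h'
      · exact Or.inl (h'.trans h.symm)
      · exact Or.inr h'
    · refine ⟨x, fun e => hxy (e.trans h), (hmem x).2 (Or.inl rfl), fun k hk => ?_⟩
      rcases (hmem k).1 hk with h' | h'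
      · exact Or.inr h'
      · exact Or.inl (h'.trans h.symm)
  choose st hst1 hst2 hst3 using hstar
  obtain ⟨v⟩ : Nonempty α := by
    rw [← Fintype.card_pos_iff]; omega
  let J : Finset α := (Finset.univ.erase v).erase (st v)
  have hJcard : J.card = Fintype.card α - 2 := by
    rw [Finset.card_erase_of_mem, Finset.card_erase_of_mem (Finset.mem_univ v), Finset.card_univ]
    · omega
    · exact Finset.mem_erase.2 ⟨hst1 v, Finset.mem_univ _⟩
  have hJ : ∀ j, j ∈ J ↔ j ≠ st v ∧ j ≠ v := by
    intro j; simp [J]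
  refine ⟨insert 1 (J.image (fun j => swap v j)), 1, ?_, ?_⟩
  · have h1 := Finset.card_insert_le (1 : Perm α) (J.image (fun j => swap v j))
    have h2 := Finset.card_image_le (s := J) (f := fun j => swap v j)
    omega
  intro K hK
  have hKH : ∀ g ∈ K, g ∈ H := by
    intro g hg
    have := hK g hg 1 (Finset.mem_insert_self _ _)
    simpa using this
  have hpair : ∀ g ∈ K, ∀ j, j ≠ st v → j ≠ v →
      (g v = v ∧ g j = j) ∨ (g v = j ∧ g j = v) ∨ (g v = st v ∧ g j = st j) ∨
        (g v = st j ∧ g j = st v) := by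
    intro g hg j hj1 hj2
    have hnr : ¬ Rel H v j := by
      intro h
      rcases hst3 v j h with e | e
      · exact hj2 e
      · exact hj1 e
    have hm : (swap v j)⁻¹ * g * swap v j ∈ H :=
      hK g hg _ (Finset.mem_insert_of_mem (Finset.mem_image_of_mem _ ((hJ j).2 ⟨hj1, hj2⟩)))
    rcases pair_lemma hnr (hKH g hg) hm with h | h | ⟨h1, h2, h3, h4, h5⟩
    · exact Or.inl h
    · exact Or.inr (Or.inl h)
    · right; right
      have e1 := rel_of_disjoint hnr h1 h3 h5 (hst2 v)
      have hnr' : ¬ Rel H j v := fun e => hnr e.symm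
      have h5' : swap j v * swap (g j) (g v) ∈ H := by
        rwa [swap_comm j v, swap_comm (g j) (g v)]
      have e2 := rel_of_disjoint hnr' h4 h2 h5' (hst2 j)
      have e3 : st v ≠ st j := by
        intro e
        exact hnr ((hst2 v).trans (e ▸ (hst2 j).symm))
      rcases e1 with e1 | e1 | e1
      · exact absurd e1 (hst1 v)
      · rcases e2 with e2 | e2 | e2
        · exact absurd e2 (hst1 j)
        · exact Or.inl ⟨e1.symm, e2.symm⟩
        · exact absurd (e1.trans e2.symm) e3
      · rcases e2 with e2 | e2 | e2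
        · exact absurd e2 (hst1 j)
        · exact absurd (e1.trans e2.symm) e3
        · exact Or.inr ⟨e2.symm, e1.symm⟩
  have hfix : ∀ g ∈ K, g v = v → g = 1 := by
    intro g hg hgv
    have hj : ∀ j, j ≠ st v → g j = j := by
      intro j hj1
      by_cases hj2 : j = v
      · rw [hj2]; exact hgv
      rcases hpair g hg j hj1 hj2 with h | h | h | h
      · exact h.2
      · exact absurd (h.1.symm.trans hgv) hj2
      · exact absurd (h.1.symm.trans hgv) (hst1 v)
      · exfalso
        have h1 : st j = v := h.1.symm.trans hgv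
        have h2 : Rel H v j := by
          have := (hst2 j).symm
          rwa [h1] at this
        rcases hst3 v j h2 with e | e
        · exact hj2 e
        · exact hj1 e
    ext w
    by_cases hw : w = st v
    · by_contra hne
      have h1 : g (st v) ≠ st v := by
        intro e
        apply hne
        rw [hw]; simpa using e
      have h2 := hj _ h1
      exact h1 (g.injective h2)
    · simpa using hj w hw
  have hS : ∀ g ∈ K, g v ∈ ({v, st v} : Finset α) := by
    intro g hg
    obtain ⟨j, hj⟩ : ∃ j, j ∉ ({v, st v} : Finset α) := by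
      by_contra hcon
      push Not at hcon
      have : (Finset.univ : Finset α) ⊆ {v, st v} := fun x _ => hcon x
      have h1 := Finset.card_le_card this
      have h2 := Finset.card_le_two (a := v) (b := st v)
      rw [Finset.card_univ] at h1
      omega
    simp only [Finset.mem_insert, Finset.mem_singleton, not_or] at hj
    obtain ⟨k, hk⟩ : ∃ k, k ∉ ({v, st v, j, st j} : Finset α) := by
      by_contra hcon
      push Not at hcon
      have : (Finset.univ : Finset α) ⊆ {v, st v, j, st j} := fun x _ => hcon x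
      have h1 := Finset.card_le_card this
      have h2 := Finset.card_le_four (a := v) (b := st v) (c := j) (d := st j)
      rw [Finset.card_univ] at h1
      omega
    simp only [Finset.mem_insert, Finset.mem_singleton, not_or] at hk
    obtain ⟨hk1, hk2, hk3, hk4⟩ := hk
    have hjk : ¬ Rel H j k := by
      intro h
      rcases hst3 j k h with e | e
      · exact hk3 e
      · exact hk4 e
    simp only [Finset.mem_insert, Finset.mem_singleton]
    have h1 : g v = v ∨ g v = st v ∨ g v = j ∨ g v = st j := by
      rcases hpair g hg j hj.2 hj.1 with h | h | h | h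
      · exact Or.inl h.1
      · exact Or.inr (Or.inr (Or.inl h.1))
      · exact Or.inr (Or.inl h.1)
      · exact Or.inr (Or.inr (Or.inr h.1))
    have h2 : g v = v ∨ g v = st v ∨ g v = k ∨ g v = st k := by
      rcases hpair g hg k hk2 hk1 with h | h | h | h
      · exact Or.inl h.1
      · exact Or.inr (Or.inr (Or.inl h.1))
      · exact Or.inr (Or.inl h.1)
      · exact Or.inr (Or.inr (Or.inr h.1))
    have r1 : g v = j ∨ g v = st j → Rel H j (g v) := by
      rintro (e | e)
      · rw [e]; exact Rel.refl j
      · rw [e]; exact hst2 j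
    have r2 : g v = k ∨ g v = st k → Rel H k (g v) := by
      rintro (e | e)
      · rw [e]; exact Rel.refl k
      · rw [e]; exact hst2 k
    rcases h1 with h1 | h1 | h1
    · exact Or.inl h1
    · exact Or.inr h1
    · rcases h2 with h2 | h2 | h2
      · exact Or.inl h2
      · exact Or.inr h2
      · exact absurd ((r1 h1).trans (r2 h2).symm) hjk
  have h1 := card_le_of_stab K v {v, st v} hS hfix
  have h2 := Finset.card_le_two (a := v) (b := st v)
  exact lt_of_le_of_lt (h1.trans h2) (by norm_num)

/-- The contradiction for three elements in case three. -/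
theorem case_three_aux (hfree : ∀ g ∈ H, g.support.card ≤ 3 → g = 1) {v : α} {J : Finset α}
    (hvJ : v ∉ J) (hJ : 8 ≤ J.card) {h h' : Perm α} (hh : h ∈ H) (hh' : h' ∈ H)
    (hc : ∀ j ∈ J, (swap v j)⁻¹ * h * swap v j ∈ H)
    (hc' : ∀ j ∈ J, (swap v j)⁻¹ * h' * swap v j ∈ H)
    (hv : h v ≠ v) (hv' : h' v ≠ v) (hvv : h v ≠ h' v) : False := by
  classical
  have hrel : ∀ i j, Rel H i j → i = j := by
    rintro i j ⟨g, hg, hgi, hgc⟩
    rw [hfree g hg hgc] at hgi
    simpa using hgi
  have hd : ∀ g ∈ H, g v ≠ v → (∀ j ∈ J, (swap v j)⁻¹ * g * swap v j ∈ H) → ∀ j ∈ J, j ≠ g v →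
      g j ≠ v ∧ g j ≠ j ∧ swap v j * swap (g v) (g j) ∈ H := by
    intro g hg hgv hgc j hj hjg
    have hnr : ¬ Rel H v j := fun e => hvJ (hrel v j e ▸ hj)
    rcases pair_lemma hnr hg (hgc j hj) with e | e | e
    · exact absurd e.1 hgv
    · exact absurd e.1.symm hjg
    · exact ⟨e.2.2.1, e.2.2.2.1, e.2.2.2.2⟩
  set k := h v with hk
  set k' := h' v with hk'
  -- choose `j`
  obtain ⟨j, hjJ, hj⟩ : ∃ j ∈ J, j ∉ ({k, k', h⁻¹ k'} : Finset α) := by
    refine Finset.exists_mem_notMem_of_card_lt_card ?_
    have := Finset.card_le_three (a := k) (b := k') (c := h⁻¹ k')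
    omega
  simp only [Finset.mem_insert, Finset.mem_singleton, not_or] at hj
  obtain ⟨hjk, hjk', hjh⟩ := hj
  have hjv : j ≠ v := fun e => hvJ (e ▸ hjJ)
  obtain ⟨a1, a2, a3⟩ := hd h hh hv hc j hjJ hjk
  obtain ⟨b1, b2, b3⟩ := hd h' hh' hv' hc' j hjJ hjk'
  set q := h j with hq
  set q' := h' j with hq'
  have hkq : k ≠ q := fun e => hjv (h.injective e).symm
  have hkq' : k' ≠ q' := fun e => hjv (h'.injective e).symm
  have hqk' : q ≠ k' := by
    intro e
    apply hjh
    rw [← e, hq]; simp
  have he : swap k q * swap k' q' ∈ H := by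
    have h1 := H.mul_mem a3 b3
    have h2 : swap v j * swap k q = swap k q * swap v j :=
      swap_comm_of_ne (Ne.symm hv) (Ne.symm a1) hjk (Ne.symm a2)
    rw [h2, mul_assoc, ← mul_assoc (swap v j) (swap v j), swap_mul_self, one_mul] at h1
    exact h1
  have hqq' : q ≠ q' := by
    intro e
    have h1 := hfree _ he (card_support_swap_mul_swap_le {k, q, k'} Finset.card_le_three
      (by simp) (by simp) (by simp) (by simp [e]))
    have h2 := congrArg (fun z : Perm α => z k') h1
    simp only [Perm.mul_apply, Perm.one_apply, swap_apply_left, ← e, swap_apply_right] at h2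
    exact hvv h2
  have hkq'' : k ≠ q' := by
    intro e
    have h1 := hfree _ he (card_support_swap_mul_swap_le {k, q, k'} Finset.card_le_three
      (by simp) (by simp) (by simp) (by simp [e]))
    have h2 := congrArg (fun z : Perm α => z k') h1
    simp only [Perm.mul_apply, Perm.one_apply, swap_apply_left, ← e] at h2
    exact hqk' h2
  -- choose `s`
  obtain ⟨s, hsJ, hs⟩ : ∃ s ∈ J, s ∉ ({k, j, q} ∪ {k', h⁻¹ k', q', h⁻¹ q'} : Finset α) := by
    refine Finset.exists_mem_notMem_of_card_lt_card ?_
    have h1 := Finset.card_le_three (a := k) (b := j) (c := q)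
    have h2 := Finset.card_le_four (a := k') (b := h⁻¹ k') (c := q') (d := h⁻¹ q')
    have h3 := Finset.card_union_le ({k, j, q} : Finset α) {k', h⁻¹ k', q', h⁻¹ q'}
    omega
  simp only [Finset.mem_union, Finset.mem_insert, Finset.mem_singleton, not_or] at hs
  obtain ⟨⟨hsk, hsj, hsq⟩, hsk', hshk', hsq', hshq'⟩ := hs
  have hsv : s ≠ v := fun e => hvJ (e ▸ hsJ)
  obtain ⟨c1, c2, c3⟩ := hd h hh hv hc s hsJ hsk
  set r := h s with hr
  have hrk : r ≠ k := fun e => hsv (h.injective e)
  have hrq : r ≠ q := fun e => hsj (h.injective e)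
  have hrk' : r ≠ k' := by
    intro e
    apply hshk'
    rw [← e, hr]; simp
  have hrq' : r ≠ q' := by
    intro e
    apply hshq'
    rw [← e, hr]; simp
  -- conjugate
  set d := swap v s * swap k r with hdd
  have hconj : d * (swap k q * swap k' q') * d⁻¹ = swap r q * swap k' q' := by
    have e1 : d * (swap k q * swap k' q') * d⁻¹ =
        (d * swap k q * d⁻¹) * (d * swap k' q' * d⁻¹) := by group
    rw [e1, ← Equiv.swap_apply_apply, ← Equiv.swap_apply_apply]
    have dk : d k = r := by
      rw [hdd, Perm.mul_apply, swap_apply_left, swap_apply_of_ne_of_ne c1 c2]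
    have dq : d q = q := by
      rw [hdd, Perm.mul_apply, swap_apply_of_ne_of_ne (Ne.symm hkq) (Ne.symm hrq),
        swap_apply_of_ne_of_ne a1 (Ne.symm hsq)]
    have dk' : d k' = k' := by
      rw [hdd, Perm.mul_apply, swap_apply_of_ne_of_ne (Ne.symm hvv) (Ne.symm hrk'),
        swap_apply_of_ne_of_ne hv' (Ne.symm hsk')]
    have dq' : d q' = q' := by
      rw [hdd, Perm.mul_apply, swap_apply_of_ne_of_ne (Ne.symm hkq'') (Ne.symm hrq'),
        swap_apply_of_ne_of_ne b1 (Ne.symm hsq')]
    rw [dk, dq, dk', dq']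
  have hf : swap k q * swap r q ∈ H := by
    have h1 : d * (swap k q * swap k' q') * d⁻¹ ∈ H :=
      H.mul_mem (H.mul_mem c3 he) (H.inv_mem c3)
    rw [hconj] at h1
    have h2 := H.mul_mem he h1
    have h3 : swap r q * swap k' q' = swap k' q' * swap r q :=
      swap_comm_of_ne hrk' hrq' hqk' hqq'
    rw [h3, mul_assoc, ← mul_assoc (swap k' q') (swap k' q'), swap_mul_self, one_mul] at h2
    exact h2
  have h1 := hfree _ hf (card_support_swap_mul_swap_le {k, q, r} Finset.card_le_three
      (by simp) (by simp) (by simp) (by simp))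
  have h2 := congrArg (fun z : Perm α => z r) h1
  simp only [Perm.mul_apply, Perm.one_apply, swap_apply_left, swap_apply_right] at h2
  exact hrk h2.symm

theorem case_three (hcard : 5 ≤ Fintype.card α) (hfree : ∀ g ∈ H, g.support.card ≤ 3 → g = 1) :
    Few H := by
  classical
  have hrel : ∀ i j, Rel H i j → i = j := by
    rintro i j ⟨g, hg, hgi, hgc⟩
    rw [hfree g hg hgc] at hgi
    simpa using hgi
  obtain ⟨v⟩ : Nonempty α := by
    rw [← Fintype.card_pos_iff]; omega
  obtain ⟨J, hJsub, hJcard⟩ := Finset.exists_subset_card_eq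
    (s := Finset.univ.erase v) (n := Fintype.card α - 4) (by
      rw [Finset.card_erase_of_mem (Finset.mem_univ v), Finset.card_univ]; omega)
  have hvJ : v ∉ J := fun h => (Finset.mem_erase.1 (hJsub h)).1 rfl
  have hTcard : (insert 1 (J.image (fun j => swap v j)) : Finset (Perm α)).card ≤
      Fintype.card α - 3 := by
    have h1 := Finset.card_insert_le (1 : Perm α) (J.image (fun j => swap v j))
    have h2 := Finset.card_image_le (s := J) (f := fun j => swap v j)
    omega
  have key : ∀ K : Subgroup (Perm α),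
      (∀ g ∈ K, ∀ τ ∈ insert 1 (J.image (fun j => swap v j)), τ⁻¹ * g * τ ∈ H) →
      (∀ g ∈ K, g ∈ H) ∧ (∀ g ∈ K, ∀ j ∈ J, (swap v j)⁻¹ * g * swap v j ∈ H) ∧
        (∀ g ∈ K, g v = v → g = 1) := by
    intro K hK
    have hKH : ∀ g ∈ K, g ∈ H := by
      intro g hg
      have := hK g hg 1 (Finset.mem_insert_self _ _)
      simpa using this
    have hKJ : ∀ g ∈ K, ∀ j ∈ J, (swap v j)⁻¹ * g * swap v j ∈ H := fun g hg j hj =>
      hK g hg _ (Finset.mem_insert_of_mem (Finset.mem_image_of_mem _ hj))
    refine ⟨hKH, hKJ, ?_⟩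
    intro g hg hgv
    have hj : ∀ j ∈ J, g j = j := by
      intro j hj
      have hnr : ¬ Rel H v j := fun e => hvJ (hrel v j e ▸ hj)
      rcases pair_lemma hnr (hKH g hg) (hKJ g hg j hj) with e | e | e
      · exact e.2
      · exact absurd (hgv.symm.trans e.1) (fun e' => hvJ (e' ▸ hj))
      · exact absurd hgv e.1
    apply hfree g (hKH g hg)
    have hsub : g.support ⊆ Finset.univ \ insert v J := by
      intro x hx
      rw [mem_support] at hx
      rw [Finset.mem_sdiff]
      refine ⟨Finset.mem_univ _, fun hxm => ?_⟩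
      rcases Finset.mem_insert.1 hxm with e | e
      · exact hx (e ▸ hgv)
      · exact hx (hj x e)
    have h1 := Finset.card_le_card hsub
    rw [Finset.card_sdiff_of_subset (Finset.subset_univ _), Finset.card_insert_of_notMem hvJ,
      Finset.card_univ] at h1
    omega
  rcases Nat.lt_or_ge (Fintype.card α) 16 with hn | hn
  · refine ⟨insert 1 (J.image (fun j => swap v j)), 3, by omega, ?_⟩
    intro K hK
    obtain ⟨-, -, hfix⟩ := key K hK
    have h1 := card_le_of_stab K v Finset.univ (fun g _ => Finset.mem_univ _) hfix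
    rw [Finset.card_univ] at h1
    exact lt_of_le_of_lt h1 (lt_of_lt_of_le hn (by norm_num))
  · refine ⟨insert 1 (J.image (fun j => swap v j)), 1, by omega, ?_⟩
    intro K hK
    obtain ⟨hKH, hKJ, hfix⟩ := key K hK
    by_contra hcon
    have h3 : 2 < Fintype.card K := by
      rw [← Nat.card_eq_fintype_card]
      have : (2 : ℕ) ^ (1 + 1) = 4 := by norm_num
      omega
    rw [Fintype.two_lt_card_iff] at h3
    obtain ⟨a, b, c, hab, hac, hbc⟩ := h3
    have hx : (a⁻¹ * b).1 ∈ K := (a⁻¹ * b).2
    have hy : (a⁻¹ * c).1 ∈ K := (a⁻¹ * c).2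
    have hxy : (b⁻¹ * c).1 ∈ K := (b⁻¹ * c).2
    have n1 : (a⁻¹ * b).1 v ≠ v := by
      intro e
      have := hfix _ hx e
      have h' : a⁻¹ * b = 1 := Subtype.ext this
      exact hab (inv_mul_eq_one.1 h')
    have n2 : (a⁻¹ * c).1 v ≠ v := by
      intro e
      have := hfix _ hy e
      have h' : a⁻¹ * c = 1 := Subtype.ext this
      exact hac (inv_mul_eq_one.1 h')
    have n3 : (a⁻¹ * b).1 v ≠ (a⁻¹ * c).1 v := by
      intro e
      have e' : ((a⁻¹ * b)⁻¹ * (a⁻¹ * c)).1 v = v := by
        rw [Subgroup.coe_mul, Perm.mul_apply, ← e]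
        simp
      have e2 : (a⁻¹ * b)⁻¹ * (a⁻¹ * c) = b⁻¹ * c := by group
      rw [e2] at e'
      have := hfix _ hxy e'
      have h' : b⁻¹ * c = 1 := Subtype.ext this
      exact hbc (inv_mul_eq_one.1 h')
    exact case_three_aux hfree hvJ (by omega) (hKH _ hx) (hKH _ hy) (hKJ _ hx) (hKJ _ hy) n1 n2 n3

/-- The combinatorial core. -/
theorem few_of_not_le (hcard : 5 ≤ Fintype.card α) (hH : ¬ alternatingGroup α ≤ H) : Few H := by
  classical
  have : Nontrivial α := Fintype.one_lt_card_iff_nontrivial.1 (by omega)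
  have hex : ∃ i j : α, ¬ Rel H i j := by
    by_contra hcon
    push Not at hcon
    exact hH (alternating_le_of_rel hcon)
  obtain ⟨i0, j0, hij0⟩ := hex
  by_cases hconst : ∀ j, cnt H j = cnt H i0
  · rcases Nat.lt_or_ge 2 (cnt H i0) with h3 | h3
    · refine case_one (fun w => Rel H i0 w) i0 j0 (Rel.refl i0) hij0 (by omega) ?_
      intro i j hi hj h hh hh'
      have hnr : ¬ Rel H i j := fun e => hj (hi.trans e)
      rcases pair_lemma hnr hh hh' with e | e | ⟨e1, e2, e3, e4, e5⟩
      · exact Or.inl e
      · exact Or.inr e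
      · exfalso
        have := (cnt_of_disjoint hnr hh e1 e3 e5).1
        rw [hconst i] at this
        omega
    · have h1 : 1 ≤ cnt H i0 := by
        unfold cnt
        rw [Nat.one_le_iff_ne_zero]
        intro h0
        rw [Finset.card_eq_zero] at h0
        have : i0 ∈ (∅ : Finset α) := by
          rw [← h0]
          simp only [Finset.mem_filter, Finset.mem_univ, true_and]
          exact Rel.refl i0
        simp at this
      have h12 : cnt H i0 = 1 ∨ cnt H i0 = 2 := by omega
      rcases h12 with h | h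
      · apply case_three hcard
        intro g hg hgc
        ext w
        have hw := hconst w
        rw [h] at hw
        unfold cnt at hw
        rw [Finset.card_eq_one] at hw
        obtain ⟨x, hx⟩ := hw
        have m1 : w ∈ ({x} : Finset α) := by
          rw [← hx]
          simp only [Finset.mem_filter, Finset.mem_univ, true_and]
          exact Rel.refl w
        have m2 : g w ∈ ({x} : Finset α) := by
          rw [← hx]
          simp only [Finset.mem_filter, Finset.mem_univ, true_and]
          exact ⟨g, hg, rfl, hgc⟩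
        rw [Finset.mem_singleton] at m1 m2
        rw [m2, Perm.one_apply, m1]
      · exact case_two hcard (fun i => (hconst i).trans h)
  · push Not at hconst
    obtain ⟨j1, hj1⟩ := hconst
    refine case_one (fun w => cnt H w = cnt H i0) i0 j1 rfl hj1 (by omega) ?_
    intro i j hi hj h hh hh'
    have hnr : ¬ Rel H i j := by
      rintro ⟨g, hg, hgi, -⟩
      apply hj
      rw [← hgi, cnt_map hg, hi]
    rcases pair_lemma hnr hh hh' with e | e | ⟨e1, e2, e3, e4, e5⟩
    · exact Or.inl e
    · exact Or.inr e
    · exfalso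
      have := (cnt_of_disjoint hnr hh e1 e3 e5).2
      exact hj (this ▸ hi)

/-! ### The theorem -/

theorem exists_base (n : ℕ) (hn : 1 ≤ n) (X : Type*) [MulAction (Perm (Fin n)) X]
    [FaithfulSMul (Perm (Fin n)) X] :
    ∃ B : Finset X, IsBase (Perm (Fin n)) X B ∧ B.card ≤ n := by
  classical
  rcases Nat.lt_or_ge n 5 with h5 | h5
  · -- small degrees
    have hc : Nat.card (⊤ : Subgroup (Perm (Fin n))) < 2 ^ (n + 1) := by
      rw [Subgroup.card_top, Nat.card_eq_fintype_card, Fintype.card_perm, Fintype.card_fin]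
      interval_cases n <;> decide
    obtain ⟨B, hB, hB'⟩ := greedy (X := X) n ⊤ hc
    exact ⟨B, fun g hg => hB' g (Subgroup.mem_top g) hg, hB⟩
  · -- a point whose stabiliser does not contain the alternating group
    have hx : ∃ x : X, ¬ alternatingGroup (Fin n) ≤ MulAction.stabilizer (Perm (Fin n)) x := by
      by_contra hcon
      push Not at hcon
      have : NeZero n := ⟨by omega⟩
      let a : Fin n := ⟨0, by omega⟩
      let b : Fin n := ⟨1, by omega⟩
      let c : Fin n := ⟨2, by omega⟩
      have hab : a ≠ b := by simp [a, b]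
      have hac : a ≠ c := by simp [a, c]
      have hbc : b ≠ c := by simp [b, c]
      have hmem : swap a b * swap b c ∈ alternatingGroup (Fin n) := by
        rw [mem_alternatingGroup, Perm.sign_mul, sign_swap hab, sign_swap hbc]
        decide
      have h1 : swap a b * swap b c = 1 := by
        refine FaithfulSMul.eq_of_smul_eq_smul (α := X) (fun x => ?_)
        rw [one_smul]
        exact MulAction.mem_stabilizer_iff.1 (hcon x hmem)
      have h2 := congrArg (fun z : Perm (Fin n) => z c) h1
      simp only [Perm.mul_apply, Perm.one_apply, swap_apply_right] at h2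
      exact hac h2
    obtain ⟨x, hx⟩ := hx
    obtain ⟨T, m, hTm, hK⟩ := few_of_not_le (by simpa using h5) hx
    let K : Subgroup (Perm (Fin n)) :=
      ⨅ τ ∈ T, MulAction.stabilizer (Perm (Fin n)) (τ • x)
    have hKmem : ∀ g, g ∈ K ↔ ∀ τ ∈ T, g • τ • x = τ • x := by
      intro g
      simp only [K, Subgroup.mem_iInf, MulAction.mem_stabilizer_iff]
    have hKc : Nat.card K < 2 ^ (m + 1) := by
      apply hK
      intro g hg τ hτ
      rw [MulAction.mem_stabilizer_iff]
      have := (hKmem g).1 hg τ hτ
      rw [mul_smul, mul_smul, this, inv_smul_smul]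
    obtain ⟨B, hB, hB'⟩ := greedy (X := X) m K hKc
    refine ⟨T.image (fun τ => τ • x) ∪ B, ?_, ?_⟩
    · intro g hg
      apply hB' g
      · rw [hKmem]
        intro τ hτ
        exact hg _ (Finset.mem_union_left _ (Finset.mem_image_of_mem _ hτ))
      · intro y hy
        exact hg y (Finset.mem_union_right _ hy)
    · have h1 := Finset.card_union_le (T.image (fun τ => τ • x)) B
      have h2 := Finset.card_image_le (s := T) (f := fun τ => τ • x)
      rw [Fintype.card_fin] at hTm
      omega

/-- **Main theorem.** For every `n ≥ 1` and every faithful action of the symmetric group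
`S_n = Equiv.Perm (Fin n)` on a set `X`, there is a base with at most `n` points; hence the base
size of the action is at most `n`. -/
theorem result (n : ℕ) (hn : 1 ≤ n) (X : Type*) [MulAction (Perm (Fin n)) X]
    [FaithfulSMul (Perm (Fin n)) X] :
    (∃ B : Finset X, IsBase (Perm (Fin n)) X B ∧ B.card ≤ n) ∧
      baseSize (Perm (Fin n)) X ≤ n := by
  obtain ⟨B, hB, hBn⟩ := exists_base n hn X
  exact ⟨⟨B, hB, hBn⟩, (Nat.sInf_le (⟨B, hB, rfl⟩ : B.card ∈ {k | ∃ B : Finset X, IsBase (Perm (Fin n)) X B ∧ B.card = k})).trans hBn⟩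

end Pool.Agent.Results.MP_3e5dca_al.BaseSizeSymmetric
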